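import Mathlib
import Pool.Agent.N741.HB.Stm5

/-! HK/K5: few classes of solutions over all number fields of bounded degree (helper887). -/

set_option autoImplicit false

namespace Pool.Agent.N887.HK

open Filter Pool.Agent.Y902.GN Pool.Agent.N741.HB Pool.Agent.N741.HC Pool.Agent.N741.HK

/-- heights of monomials -/
lemma height_mon {K : Type} [Field K] [NumberField K] {P : ℕ} (y : Fin P → K) (Y : ℝ) (hY : 1 ≤ Y)
    (hy : ∀ j, Height.mulHeight₁ (y j) ≤ Y) (c : Fin P → ℤ) (B : ℕ) (hc : ∀ j, |c j| ≤ (B : ℤ)) :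
    Height.mulHeight₁ (∏ j, y j ^ c j) ≤ Y ^ (P * B) := by
  refine (Height.mulHeight₁_prod_le _ _).trans ?_
  have h1 : ∀ j, Height.mulHeight₁ (y j ^ c j) ≤ Y ^ B := by
    intro j
    rw [Height.mulHeight₁_zpow]
    have h2 : (c j).natAbs ≤ B := by
      have := hc j
      rw [Int.abs_eq_natAbs] at this
      exact_mod_cast this
    exact (pow_le_pow_left₀ (Height.mulHeight₁_nonneg _) (hy j) _).trans
      (pow_le_pow_right₀ hY h2)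
  calc ∏ j, Height.mulHeight₁ (y j ^ c j) ≤ ∏ _j : Fin P, Y ^ B :=
        Finset.prod_le_prod (fun j _ => Height.mulHeight₁_nonneg _) fun j _ => h1 j
    _ = Y ^ (P * B) := by
        rw [Finset.prod_const, Finset.card_univ, Fintype.card_fin, ← pow_mul, mul_comm]

/-- the final computation -/
lemma close_of {n P κ Y ν B : ℕ} {u : Fin n → ℤ} {v : ℤ} {e : Fin n → Fin P → ℕ}
    {e₀ e₀' : Fin P → ℕ} {r r' : ℕ} {b b' : Fin P → ℂ} (hY : 1 ≤ Y) (hν : P * B ≤ ν)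
    (h : EqK κ Y u v e e₀ r b) (h' : EqK κ Y u v e e₀' r' b')
    (c : Fin n → Fin n → Fin P → ℤ) (hc : ∀ i i' j, |c i i' j| ≤ (B : ℤ))
    (hcon : ∀ i i', ∏ j, b j ^ ((e i j : ℤ) - (e i' j : ℤ) - c i i' j) =
      ∏ j, b' j ^ ((e i j : ℤ) - (e i' j : ℤ) - c i i' j)) :
    Close κ ((Y : ℝ) ^ ν) (fun i => ∏ j, b j ^ e i j) (fun i => ∏ j, b' j ^ e i j) := by
  have key : ∀ (e₀ : Fin P → ℕ) (r : ℕ) (b : Fin P → ℂ), EqK κ Y u v e e₀ r b →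
      (∀ j, b j ≠ 0) ∧ ∀ i i', Small κ ((Y : ℝ) ^ ν) (∏ j, b j ^ c i i' j) := by
    rintro e₀ r b ⟨K, _, _, σ, y, z, hK, hy, hσ, _⟩
    have hYr : (1 : ℝ) ≤ Y := by exact_mod_cast hY
    refine ⟨fun j => ?_, fun i i' => ⟨K, inferInstance, inferInstance, σ, ∏ j, y j ^ c i i' j, hK,
      ?_, ?_, ?_⟩⟩
    · rw [← hσ j]
      exact (map_ne_zero σ).2 (hy j).1
    · exact Finset.prod_ne_zero_iff.2 fun j _ => zpow_ne_zero _ (hy j).1
    · exact (height_mon y Y hYr (fun j => (hy j).2) (c i i') B (hc i i')).trans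
        (pow_le_pow_right₀ hYr hν)
    · rw [map_prod]
      refine Finset.prod_congr rfl fun j _ => ?_
      rw [map_zpow₀, hσ]
  obtain ⟨hb, hs⟩ := key e₀ r b h
  obtain ⟨hb', hs'⟩ := key e₀' r' b' h'
  intro i i'
  refine ⟨∏ j, b j ^ c i i' j, ∏ j, b' j ^ c i i' j, hs i i', hs' i i', ?_⟩
  have h1 : ∀ b : Fin P → ℂ, (∀ j, b j ≠ 0) →
      (∏ j, b j ^ ((e i j : ℤ) - (e i' j : ℤ) - c i i' j)) * (∏ j, b j ^ e i' j) *
        (∏ j, b j ^ c i i' j) = ∏ j, b j ^ e i j := by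
    intro b hb
    rw [← Finset.prod_mul_distrib, ← Finset.prod_mul_distrib]
    refine Finset.prod_congr rfl fun j _ => ?_
    rw [← zpow_natCast (b j) (e i' j), ← zpow_natCast (b j) (e i j), ← zpow_add₀ (hb j),
      ← zpow_add₀ (hb j)]
    congr 1
    ring
  have h2 := h1 b hb
  have h3 := h1 b' hb'
  have h4 := hcon i i'
  show (∏ j, b j ^ e i j) * (∏ j, b' j ^ e i' j) * (∏ j, b' j ^ c i i' j) =
    (∏ j, b' j ^ e i j) * (∏ j, b j ^ e i' j) * (∏ j, b j ^ c i i' j)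
  rw [← h2, ← h3, h4]
  ring

theorem rk (h1 : S_ult) (h2 : S_dio) : S_rk := by
  intro n P κ ε hn hε
  by_contra hcon
  push Not at hcon
  have hδ : ∀ ν : ℕ, (0 : ℝ) < 1 / ((ν : ℝ) + 1) := fun ν => by positivity
  choose Y hY u v hu hv T hT hcl hcard using fun ν : ℕ => hcon ν ν (1 / ((ν : ℝ) + 1)) (hδ ν)
  have hsol : ∀ (ν : ℕ) (a : Fin n → ℂ), ∃ (b : Fin P → ℂ) (e : Fin n → Fin P → ℕ)
      (e₀ : Fin P → ℕ) (r : ℕ), a ∈ T ν → ν ≤ r ∧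
      (r : ℝ) ≤ (Y ν : ℝ) ^ (1 / ((ν : ℝ) + 1)) ∧
      (∀ i j, (e i j : ℝ) ≤ (Y ν : ℝ) ^ (1 / ((ν : ℝ) + 1))) ∧
      (∀ j, (e₀ j : ℝ) ≤ (Y ν : ℝ) ^ (1 / ((ν : ℝ) + 1))) ∧
      NV (u ν) e b ∧ EqK κ (Y ν) (u ν) (v ν) e e₀ r b ∧ ∀ i, a i = ∏ j, b j ^ e i j := by
    intro ν a
    by_cases ha : a ∈ T ν
    · obtain ⟨b, e, e₀, r, h⟩ := hT ν a ha
      exact ⟨b, e, e₀, r, fun _ => h⟩
    · exact ⟨0, 0, 0, 0, fun h => absurd h ha⟩
  choose b e e₀ r hber using hsol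
  obtain ⟨T', C0, H, e', hYinf, hT', hbig, he', hH, hconst⟩ :=
    h1 n P κ ε hn hε Y (Fin n → ℂ) T u v e e₀ r b
      (Eventually.of_forall fun ν => ⟨hY ν, hcard ν⟩)
      (Eventually.of_forall fun ν => hu ν) (Eventually.of_forall fun ν => hv ν)
      (Eventually.of_forall fun ν τ hτ => by
        obtain ⟨g1, g2, g3, g4, g5, g6, g7⟩ := hber ν τ hτ
        exact ⟨g1, g2, g3, g4, g5, g6⟩)
      (Eventually.of_forall fun ν τ hτ τ' hτ' g1 g2 => by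
        funext i
        rw [(hber ν τ hτ).2.2.2.2.2.2 i, (hber ν τ' hτ').2.2.2.2.2.2 i, g1, g2])
  obtain ⟨B, hB⟩ := h2 P C0
  have hch : ∀ (ν : ℕ) (i i' : Fin n), ∃ c : Fin P → ℤ,
      ((∀ a b, H ν (a + b) ≤ H ν a + H ν b) ∧
      (∀ (k : ℕ) a, H ν (k • a) = k * H ν a) ∧ (∀ a, H ν (-a) = H ν a) ∧
      (∀ j, H ν (Pi.single j 1) ≤ C0) ∧
      ∀ i i', H ν (fun j => (e' ν i j : ℤ) - (e' ν i' j : ℤ)) ≤ C0) →
      (∀ j, |c j| ≤ (B : ℤ)) ∧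
        H ν ((fun j => (e' ν i j : ℤ) - (e' ν i' j : ℤ)) - c) = 0 := by
    intro ν i i'
    by_cases hν : ((∀ a b, H ν (a + b) ≤ H ν a + H ν b) ∧
      (∀ (k : ℕ) a, H ν (k • a) = k * H ν a) ∧ (∀ a, H ν (-a) = H ν a) ∧
      (∀ j, H ν (Pi.single j 1) ≤ C0) ∧
      ∀ i i', H ν (fun j => (e' ν i j : ℤ) - (e' ν i' j : ℤ)) ≤ C0)
    · obtain ⟨c, hc⟩ := hB (H ν) hν.1 hν.2.1 hν.2.2.1 hν.2.2.2.1 _ (hν.2.2.2.2 i i')
      exact ⟨c, fun _ => hc⟩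
    · exact ⟨0, fun h => absurd h hν⟩
  choose c hc using hch
  -- constancy for all pairs
  have hind : ∀ S : Finset (Fin n × Fin n), ∃ T₂ : ℕ → Finset (Fin n → ℂ),
      (∀ᶠ ν in (Uf : Filter ℕ), T₂ ν ⊆ T' ν) ∧ Big Y T₂ ∧ ∀ p ∈ S, ∀ᶠ ν in (Uf : Filter ℕ),
        ∀ τ ∈ T₂ ν, ∀ τ' ∈ T₂ ν,
          ∏ j, b ν τ j ^ ((e' ν p.1 j : ℤ) - (e' ν p.2 j : ℤ) - c ν p.1 p.2 j) =
          ∏ j, b ν τ' j ^ ((e' ν p.1 j : ℤ) - (e' ν p.2 j : ℤ) - c ν p.1 p.2 j) := by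
    intro S
    classical
    induction S using Finset.induction_on with
    | empty =>
      exact ⟨T', Eventually.of_forall fun ν => Finset.Subset.refl _, hbig, by simp⟩
    | insert p S _ ih =>
      obtain ⟨T₂, g1, g2, g3⟩ := ih
      obtain ⟨T₃, g4, g5, g6⟩ := hconst
        (fun ν => (fun j => (e' ν p.1 j : ℤ) - (e' ν p.2 j : ℤ)) - c ν p.1 p.2)
        (by
          filter_upwards [hH] with ν hν
          exact (hc ν p.1 p.2 hν).2) T₂ g1 g2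
      refine ⟨T₃, ?_, g5, ?_⟩
      · filter_upwards [g1, g4] with ν k1 k2
        exact k2.trans k1
      · intro q hq
        rcases Finset.mem_insert.1 hq with rfl | hq
        · exact g6
        · filter_upwards [g3 q hq, g4] with ν k1 k2 τ hτ τ' hτ'
          exact k1 τ (k2 hτ) τ' (k2 hτ')
  obtain ⟨T₃, g1, g2, g3⟩ := hind Finset.univ
  have g4 : ∀ᶠ ν in (Uf : Filter ℕ), ∀ p : Fin n × Fin n, ∀ τ ∈ T₃ ν, ∀ τ' ∈ T₃ ν,
          ∏ j, b ν τ j ^ ((e' ν p.1 j : ℤ) - (e' ν p.2 j : ℤ) - c ν p.1 p.2 j) =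
          ∏ j, b ν τ' j ^ ((e' ν p.1 j : ℤ) - (e' ν p.2 j : ℤ) - c ν p.1 p.2 j) :=
    eventually_all.2 fun p => g3 p (Finset.mem_univ p)
  obtain ⟨ν, k1, k2, k3, k4, k5, k6, k7⟩ :=
    (g1.and (hT'.and (he'.and (hH.and (g4.and (g2.one_lt.and (ev_ge (P * B)))))))).exists
  obtain ⟨a, ha, a', ha', hne⟩ := Finset.one_lt_card.1 k6
  have ma := k2 (k1 ha)
  have ma' := k2 (k1 ha')
  have ea := k3 a (k1 ha)
  have ea' := k3 a' (k1 ha')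
  obtain ⟨_, _, _, _, _, l6, l7⟩ := hber ν a ma
  obtain ⟨_, _, _, _, _, m6, m7⟩ := hber ν a' ma'
  rw [ea] at l6 l7
  rw [ea'] at m6 m7
  apply hcl ν a ma a' ma' hne
  have l8 : a = fun i => ∏ j, b ν a j ^ e' ν i j := funext l7
  have m8 : a' = fun i => ∏ j, b ν a' j ^ e' ν i j := funext m7
  have hfin := close_of (ν := ν) (B := B) (hY ν) k7 l6 m6 (c ν) (fun i i' => (hc ν i i' k4).1)
    (fun i i' => k5 (i, i') a ha a' ha')
  rw [← l8, ← m8] at hfin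
  exact hfin

end Pool.Agent.N887.HK
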